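import Mathlib
import Pool.Agent.Y268.D3.Stm
import Pool.Agent.H778R2.Kad3.Vmap

/-! Project D3, job JOINT: words for both sides under one mean. -/

set_option autoImplicit false

open scoped ComplexOrder InnerProductSpace ComplexConjugate
open Finset

noncomputable section

namespace Pool.Agent.Y79.D3

open Y268.D3 H759R2.Kad H711R2.KG

section sg

variable {B : Type} [CStarAlgebra B]

/-- exchange of the two sides, for one variable -/
def sgv : Var → unitary B × unitary B → unitary B × unitary B
  | .rot _ _, t => t.swap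
  | .core _, t => (star t.1, 1)

/-- exchange of the two sides -/
def sg (ω : Smp B) : Smp B := fun v => sgv v (ω v)

theorem sg_update (ω : Smp B) (v : Var) (t : unitary B × unitary B) :
    sg (Function.update ω v t) = Function.update (sg ω) v (sgv v t) := by
  funext u
  by_cases h : u = v
  · subst h
    simp [sg]
  · simp [sg, Function.update_of_ne h]

theorem sg_one : sg (fun _ => (1 : unitary B × unitary B)) = fun _ => 1 := by
  funext v
  cases v with
  | rot o b => rfl
  | core b =>
    change (star (1 : unitary B), (1 : unitary B)) = 1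
    rw [star_one]
    rfl

theorem itE_sg (P : Mean (unitary B × unitary B)) (Ec : Mean (unitary B)) (l : List Var)
    (f : Smp B → ℂ) (ω : Smp B) :
    itE (Mv (P.map Prod.swap) (Ec.map star)) l f (sg ω) =
      itE (Mv P Ec) l (fun ω => f (sg ω)) ω := by
  induction l generalizing ω with
  | nil => rfl
  | cons v l ih =>
    cases v with
    | rot o b =>
      change P.E (fun t => itE (Mv (P.map Prod.swap) (Ec.map star)) l f
        (Function.update (sg ω) (.rot o b) t.swap)) = P.E (fun t =>
          itE (Mv P Ec) l (fun ω => f (sg ω)) (Function.update ω (.rot o b) t))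
      congr 1
      funext t
      rw [← ih, sg_update]
      rfl
    | core b =>
      change Ec.E (fun g => itE (Mv (P.map Prod.swap) (Ec.map star)) l f
        (Function.update (sg ω) (.core b) (star g, 1))) = Ec.E (fun g =>
          itE (Mv P Ec) l (fun ω => f (sg ω)) (Function.update ω (.core b) (g, 1)))
      congr 1
      funext g
      rw [← ih, sg_update]
      rfl

theorem preH_sg (ω : Smp B) (o b : ℕ) : preH (sg ω) o b = preK ω o b := by
  induction b with
  | zero => rfl
  | succ b ih =>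
    rw [preH, preK, ih]
    rfl

theorem preK_sg (ω : Smp B) (o b : ℕ) : preK (sg ω) o b = preH ω o b := by
  induction b with
  | zero => rfl
  | succ b ih =>
    rw [preH, preK, ih]
    rfl

theorem Gl_sg (ω : Smp B) (c : ℕ) : Gl (sg ω) c = star (Gl ω c) := by
  have h : (sg ω (.core c)).1 = star (ω (.core c)).1 := rfl
  rw [Gl, Gl, preH_sg, preK_sg, h, star_mul, star_mul, star_star, mul_assoc]

theorem transfer {K : Type} [NormedAddCommGroup K] [InnerProductSpace ℂ K] {τ : B →ₗ[ℂ] ℂ}
    {w : B →ₗ[ℂ] (K →L[ℂ] K)} {q : Form K} {Ω Ω' : Type} {E : Mean Ω} {E' : Mean Ω'}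
    {p : Ω' → unitary B} {G : Ω' → ℕ → unitary B} {n : ℕ} (s : Ω → Ω')
    (h : ∀ f, E'.E f = E.E (fun ω => f (s ω))) (hw : WordLaw τ w q E' p G n) :
    WordLaw τ w q E (fun ω => p (s ω)) (fun ω => G (s ω)) n where
  form l l' h1 h2 h3 a a' θ θ' := by
    rw [← hw.form l l' h1 h2 h3 a a' θ θ', h]
  alg l l' h1 h2 h3 a a' φ := by
    rw [← hw.alg l l' h1 h2 h3 a a' φ, h]

end sg

/-- D3-JOINT -/
theorem prove_joint : S_pair → S_words → S_joint := by
  intro hp hwd B _ _ _ τ hτ K _ _ _ w hw γ hγ hb q₁ q₂ E₁ E₂ Ec s₁ s₂ n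
  have hb' : ∀ b, ‖vmap w b‖ ≤ γ * ‖b‖ := (prove3_vmap B K w).2.2 γ hb
  have r1 := (hp B τ K (vmap w) γ hb' q₁ E₁ E₂ Ec s₁).1
  have r2 := (hp B τ K w γ hb q₂ E₂ E₁ (Ec.map star) s₂).2
  have w1 := hwd B τ hτ K (vmap w) hw.vmap γ hγ hb' q₁ _ _ r1 n
  have w2 := hwd B τ hτ K w hw γ hγ hb q₂ _ _ r2 n
  refine ⟨Smp B, itMean (Mv (E₁.prod E₂) Ec) (vars n n) (fun _ => 1), fun ω => preH ω n n,
    fun ω => preH (sg ω) n n, fun ω c => Gl ω c, w1, ?_⟩
  have e : (fun (ω : Smp B) (c : ℕ) => star (Gl ω c)) = fun ω => fun c => Gl (sg ω) c := by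
    funext ω c
    rw [Gl_sg]
  rw [e]
  exact transfer sg (fun f => by rw [itMean_E, itMean_E, ← itE_sg, sg_one]) w2

end Pool.Agent.Y79.D3
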