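import Mathlib
import Pool.Agent.Y268.D3.Stm
import Pool.Agent.H672R2.Kad3.Fourier
import Pool.Agent.H708R2.Kad3.Expand
import Pool.Agent.H856R2.Kad3.Path
import Pool.Agent.H847R2.Kad3.Generic

/-! Project D3, job UP: the bound for the random vectors. -/

set_option autoImplicit false

open scoped ComplexOrder InnerProductSpace ComplexConjugate
open Finset

noncomputable section

namespace Pool.Agent.Y79.D3

open Y268.D3 H759R2.Kad H711R2.KG

section ses

variable {V : Type*} [AddCommGroup V] [Module ℂ V]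

theorem ses_sum {Q : V → V → ℂ} (hadd : ∀ ξ η η', Q ξ (η + η') = Q ξ η + Q ξ η')
    (hsmul : ∀ (c : ℂ) ξ η, Q ξ (c • η) = c * Q ξ η) {ι : Type*} (s : Finset ι) (c : ι → ℂ)
    (v : ι → V) (ξ : V) : Q ξ (∑ i ∈ s, c i • v i) = ∑ i ∈ s, c i * Q ξ (v i) := by
  classical
  induction s using Finset.induction_on with
  | empty =>
    have := hsmul 0 ξ 0
    simpa using this
  | insert a s ha ih => rw [Finset.sum_insert ha, Finset.sum_insert ha, hadd, hsmul, ih]

theorem parseval {Q : V → V → ℂ} (hadd : ∀ ξ η η', Q ξ (η + η') = Q ξ η + Q ξ η')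
    (hsmul : ∀ (c : ℂ) ξ η, Q ξ (c • η) = c * Q ξ η) (hherm : ∀ ξ η, Q η ξ = conj (Q ξ η))
    (ι : Type) [Fintype ι] [DecidableEq ι] (R : ℕ) [NeZero R] (v : (ι → ZMod R) → V) :
    ∑ ph : ι → ZMod R, Q (∑ f, Chi f ph • v f) (∑ f, Chi f ph • v f) =
      ((Fintype.card (ι → ZMod R) : ℕ) : ℂ) * ∑ f, Q (v f) (v f) := by
  have h1 : ∀ ph : ι → ZMod R, Q (∑ f, Chi f ph • v f) (∑ f, Chi f ph • v f) =
      ∑ g, ∑ f, (conj (Chi f ph) * Chi g ph) * Q (v f) (v g) := by
    intro ph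
    rw [ses_sum hadd hsmul]
    refine Finset.sum_congr rfl fun g _ => ?_
    rw [hherm (v g), ses_sum hadd hsmul, map_sum, Finset.mul_sum]
    refine Finset.sum_congr rfl fun f _ => ?_
    rw [map_mul, ← hherm (v g) (v f)]
    ring
  rw [Finset.sum_congr rfl fun ph _ => h1 ph, Finset.sum_comm, Finset.mul_sum]
  refine Finset.sum_congr rfl fun g _ => ?_
  rw [Finset.sum_comm, Finset.sum_eq_single g]
  · rw [← Finset.sum_mul, prove_orth, if_pos rfl]
  · intro f _ hf
    rw [← Finset.sum_mul, prove_orth, if_neg hf, zero_mul]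
  · intro h
    exact absurd (Finset.mem_univ _) h

end ses

section qa

variable {K : Type} [NormedAddCommGroup K] [InnerProductSpace ℂ K] {q : Form K} {C : ℝ}
  {ι : Type} [Fintype ι]

theorem qa_add (hq : IsForm q C) (ξ η η' : HH ι K) : qa q ξ (η + η') = qa q ξ η + qa q ξ η' := by
  simp only [qa]
  rw [← Finset.sum_add_distrib]
  exact Finset.sum_congr rfl fun i _ => by rw [PiLp.add_apply, hq.add]

theorem qa_smul (hq : IsForm q C) (c : ℂ) (ξ η : HH ι K) : qa q ξ (c • η) = c * qa q ξ η := by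
  simp only [qa]
  rw [Finset.mul_sum]
  exact Finset.sum_congr rfl fun i _ => by rw [PiLp.smul_apply, hq.smul]

theorem qa_herm (hq : IsForm q C) (ξ η : HH ι K) : qa q η ξ = conj (qa q ξ η) := by
  simp only [qa]
  rw [map_sum]
  exact Finset.sum_congr rfl fun i _ => hq.herm _ _

theorem qa_zero (hq : IsForm q C) (ξ : HH ι K) : qa q ξ 0 = 0 := by
  have := qa_smul hq 0 ξ 0
  simpa using this

end qa

section alg

variable {D : Type*} [CStarAlgebra D] [PartialOrder D] [StarOrderedRing D]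

theorem norm_le_of_sum {κ : Type*} [Fintype κ] (a : κ → D) (h : ∑ i, star (a i) * a i = 1)
    (i : κ) : ‖a i‖ ≤ 1 := by
  have h1 : star (a i) * a i ≤ ∑ i, star (a i) * a i :=
    Finset.single_le_sum (f := fun i => star (a i) * a i)
      (fun j _ => star_mul_self_nonneg (a j)) (Finset.mem_univ i)
  rw [h] at h1
  have h2 : ‖star (a i) * a i‖ ≤ ‖(1 : D)‖ :=
    CStarAlgebra.norm_le_norm_of_nonneg_of_le (star_mul_self_nonneg (a i)) h1
  have h3 : ‖(1 : D)‖ ≤ 1 := by
    rcases subsingleton_or_nontrivial D with hs | hs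
    · rw [Subsingleton.elim (1 : D) 0, norm_zero]
      exact zero_le_one
    · exact (CStarRing.norm_one).le
  rw [CStarRing.norm_star_mul_self] at h2
  nlinarith [norm_nonneg (a i)]

end alg

theorem up_path {B : Type} [CStarAlgebra B] {τ : B →ₗ[ℂ] ℂ} (hτ : IsTracialState τ) {n : ℕ}
    {X : CStarMatrix (Fin n) (Fin n) B} [PartialOrder B] [StarOrderedRing B]
    (hX : X ∈ unitary (CStarMatrix (Fin n) (Fin n) B))
    {δ : ℝ} (hδ : ∀ i j, pmat τ X i j ≤ δ) (k : ℕ) (j : Fin n) :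
    ∑ σ ∈ univ.filter (fun σ : Fin (k + 1) → Fin n => σ (Fin.last k) = j ∧
      Function.Injective σ), pwt τ X σ ≤ 1 ∧
    1 - (k + 1) ^ 2 * δ ≤ ∑ σ ∈ univ.filter (fun σ : Fin (k + 1) → Fin n =>
      σ (Fin.last k) = j ∧ Function.Injective σ), pwt τ X σ := by
  have hp0 : ∀ i j, 0 ≤ pmat τ X i j := by
    intro i j
    exact (Complex.nonneg_iff.1 (hτ.pos (X i j))).1
  have hp1 : ∀ j, ∑ i, pmat τ X i j = 1 := by
    intro j
    have e1 : star X * X = 1 := (Unitary.mem_iff.1 hX).1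
    have e2 : ∑ i, star (X i j) * X i j = 1 := by
      have e3 : (star X * X) j j = (1 : CStarMatrix (Fin n) (Fin n) B) j j := by rw [e1]
      rw [CStarMatrix.mul_apply, CStarMatrix.one_apply_eq] at e3
      rw [← e3]
      rfl
    unfold pmat
    rw [← Complex.re_sum, ← map_sum, e2, hτ.one]
    rfl
  exact prove3_path n (pmat τ X) δ hp0 hp1 hδ k j

/-- D3-UP -/
theorem prove_up : S_real → S_upA → S_upB → S_upC → S_up := by
  classical
  intro _ hA hB hC B _ _ _ τ hτ K _ _ _ w hw q C hq n Γ hΓ hcol Ω E p G hW X Y hX hY δ hδ R k _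
    hR θ
  have hF : ∀ ω, _ := fun ω => prove3_fourier.{0} prove3_expand.{0} B (Fin n) R X
    (fun c : Fin n => G ω c) k
  obtain ⟨V, hV⟩ : ∃ V : Ω → (Fin n → ZMod R) → HH (Fin n) K, ∀ ω f, V ω f =
    amp w (Fin n) (dgu (p ω) * (Y * Yf X (fun c : Fin n => G ω c) R k f)) θ :=
    ⟨_, fun _ _ => rfl⟩
  -- the paths
  obtain ⟨W, hWd⟩ : ∃ W : Fin n → ℝ, ∀ j, W j = ∑ σ ∈ univ.filter
    (fun σ : Fin (k + 1) → Fin n => σ (Fin.last k) = j ∧ Function.Injective σ), pwt τ X σ :=
    ⟨_, fun _ => rfl⟩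
  have hW1 : ∀ j, W j ≤ 1 := fun j => by rw [hWd]; exact (up_path hτ hX hδ k j).1
  have hW2 : ∀ j, 1 - (k + 1) ^ 2 * δ ≤ W j := fun j => by
    rw [hWd]; exact (up_path hτ hX hδ k j).2
  have hcard : ∀ σ : Fin (k + 1) → Fin n, Function.Injective σ →
      univ.image σ ∈ A21.Ps n k := by
    intro σ hσ
    simp only [A21.Ps, Finset.mem_filter, Finset.mem_univ, true_and]
    rw [Finset.card_image_of_injective _ hσ, Finset.card_univ, Fintype.card_fin]
  have hmem : ∀ M ∈ A21.Ps n k, M.card = k + 1 := by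
    intro M hM
    simpa [A21.Ps] using hM
  -- Parseval
  have e1 : ∀ ω, ∑ ph : Fin n → ZMod R, qa q
        (amp w (Fin n) (dgu (p ω) * (Y * Tw X (fun c : Fin n => G ω c) ph k)) θ)
        (amp w (Fin n) (dgu (p ω) * (Y * Tw X (fun c : Fin n => G ω c) ph k)) θ) =
      ((Fintype.card (Fin n → ZMod R) : ℕ) : ℂ) *
        (∑ M ∈ A21.Ps n k, qa q (V ω (ind R M)) (V ω (ind R M)) +
          ∑ f ∈ univ.filter (fun f => f ∉ A21.Ss n k R), qa q (V ω f) (V ω f)) := by
    intro ω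
    have e2 : ∀ ph, amp w (Fin n) (dgu (p ω) * (Y * Tw X (fun c : Fin n => G ω c) ph k)) θ =
        ∑ f, Chi f ph • V ω f := by
      intro ph
      rw [(hF ω).1 ph, Finset.mul_sum, Finset.mul_sum, map_sum, _root_.sum_apply]
      refine Finset.sum_congr rfl fun f _ => ?_
      rw [mul_smul_comm, mul_smul_comm, map_smul, smul_apply, hV]
    simp only [e2]
    rw [parseval (Q := qa q) (qa_add hq) (qa_smul hq) (qa_herm hq), A21.sum_split k R,
      A21.sum_Ss k R (by omega)]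
  -- the mean
  have e3 : E.E (fun ω => ∑ ph : Fin n → ZMod R, qa q
        (amp w (Fin n) (dgu (p ω) * (Y * Tw X (fun c : Fin n => G ω c) ph k)) θ)
        (amp w (Fin n) (dgu (p ω) * (Y * Tw X (fun c : Fin n => G ω c) ph k)) θ)) =
      ((Fintype.card (Fin n → ZMod R) : ℕ) : ℂ) *
        (∑ M ∈ A21.Ps n k, E.E (fun ω => qa q (V ω (ind R M)) (V ω (ind R M))) +
          E.E (fun ω => ∑ f ∈ univ.filter (fun f => f ∉ A21.Ss n k R),
            qa q (V ω f) (V ω f))) := by
    simp only [e1]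
    rw [E.const_mul, E.add', E.sum' (A21.Ps n k)
      (fun M ω => qa q (V ω (ind R M)) (V ω (ind R M)))]
  -- the multilinear part
  have e4 : (∑ M ∈ A21.Ps n k, E.E (fun ω => qa q (V ω (ind R M)) (V ω (ind R M)))).re ≤
      (qa q θ θ).re := by
    have h1 : ∑ M ∈ A21.Ps n k, E.E (fun ω => qa q (V ω (ind R M)) (V ω (ind R M))) =
        ∑ M ∈ A21.Ps n k, ∑ σ ∈ univ.filter (fun σ : Fin (k + 1) → Fin n =>
          Function.Injective σ) with univ.image σ = M,
          (pwt τ X σ : ℂ) * q (θ (σ (Fin.last k))) (θ (σ (Fin.last k))) := by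
      refine Finset.sum_congr rfl fun M hM => ?_
      simp only [hV]
      rw [hA B τ hτ K w hw q C hq Ω E p G n hW X Y hY R k hR M (hmem M hM) θ,
        Finset.filter_filter]
    rw [h1, Finset.sum_fiberwise_of_maps_to (fun σ hσ => hcard σ (Finset.mem_filter.1 hσ).2)]
    rw [← Finset.sum_fiberwise (univ.filter (fun σ : Fin (k + 1) → Fin n =>
      Function.Injective σ)) (fun σ => σ (Fin.last k))]
    simp only [qa]
    rw [Complex.re_sum, Complex.re_sum]
    refine Finset.sum_le_sum fun j _ => ?_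
    have h2 : ∑ σ ∈ univ.filter (fun σ : Fin (k + 1) → Fin n => Function.Injective σ)
        with σ (Fin.last k) = j,
          (pwt τ X σ : ℂ) * q (θ (σ (Fin.last k))) (θ (σ (Fin.last k))) =
        (W j : ℂ) * q (θ j) (θ j) := by
      rw [hWd, Complex.ofReal_sum, Finset.sum_mul, Finset.filter_filter]
      refine Finset.sum_congr ?_ fun σ hσ => ?_
      · ext σ
        simp only [Finset.mem_filter, Finset.mem_univ, true_and]
        exact and_comm
      · rw [(Finset.mem_filter.1 hσ).2.1]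
    rw [h2, Complex.re_ofReal_mul]
    have h3 := hq.pos (θ j)
    nlinarith [hW1 j]
  -- the remaining part
  obtain ⟨Dm, hDm⟩ : ∃ Dm : CStarMatrix (Fin n) (Fin n) B, Dm = dgc B (fun j => 1 - W j) :=
    ⟨_, rfl⟩
  obtain ⟨Z, hZ⟩ : ∃ Z : Ω → (Fin n → ZMod R) → CStarMatrix (Fin n) (Fin n) B, ∀ ω f, Z ω f =
    if f ∈ A21.Ss n k R then 0 else Y * Yf X (fun c : Fin n => G ω c) R k f :=
    ⟨_, fun _ _ => rfl⟩
  have hZn : ∀ ω f, ‖Z ω f‖ ≤ 1 := by
    intro ω f
    rw [hZ]
    split_ifs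
    · rw [norm_zero]
      exact zero_le_one
    · rw [CStarRing.norm_mem_unitary_mul _ hY]
      exact norm_le_of_sum _ ((hF ω).2 hX) f
  have hZs : ∀ ω, ∑ f, star (Z ω f) * Z ω f = 1 - ∑ M ∈ A21.Ps n k,
      star (Yf X (fun c : Fin n => G ω c) R k (ind R M)) *
        Yf X (fun c : Fin n => G ω c) R k (ind R M) := by
    intro ω
    rw [← (hF ω).2 hX, A21.sum_split k R (fun f => star (Yf X (fun c : Fin n => G ω c) R k f) *
      Yf X (fun c : Fin n => G ω c) R k f), A21.sum_Ss k R (by omega), add_sub_cancel_left,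
      A21.sum_split k R]
    have z1 : ∑ f ∈ A21.Ss n k R, star (Z ω f) * Z ω f = 0 := by
      refine Finset.sum_eq_zero fun f hf => ?_
      rw [hZ, if_pos hf, mul_zero]
    rw [z1, zero_add]
    refine Finset.sum_congr rfl fun f hf => ?_
    rw [hZ, if_neg (Finset.mem_filter.1 hf).2, star_mul, mul_assoc, ← mul_assoc (star Y),
      (Unitary.mem_iff.1 hY).1, one_mul]
  have hE : ∀ φ : CStarMatrix (Fin n) (Fin n) B →L[ℂ] ℂ,
      E.E (fun ω => φ (∑ f, star (Z ω f) * Z ω f)) = φ Dm := by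
    intro φ
    have h1 : (fun ω => φ (∑ f, star (Z ω f) * Z ω f)) = (fun _ : Ω => φ 1) -
        fun ω => ∑ M ∈ A21.Ps n k,
          φ (star (Yf X (fun c : Fin n => G ω c) R k (ind R M)) *
            Yf X (fun c : Fin n => G ω c) R k (ind R M)) := by
      funext ω
      rw [hZs, map_sub, map_sum]
      rfl
    rw [h1, map_sub, E.const, E.sum' (A21.Ps n k) (fun M ω =>
      φ (star (Yf X (fun c : Fin n => G ω c) R k (ind R M)) *
            Yf X (fun c : Fin n => G ω c) R k (ind R M)))]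
    have h2 : ∀ M ∈ A21.Ps n k, E.E (fun ω =>
        φ (star (Yf X (fun c : Fin n => G ω c) R k (ind R M)) *
            Yf X (fun c : Fin n => G ω c) R k (ind R M))) =
        φ (dgc B (fun j => ∑ σ ∈ univ.filter (fun σ : Fin (k + 1) → Fin n =>
        Function.Injective σ ∧ univ.image σ = M ∧ σ (Fin.last k) = j), pwt τ X σ)) :=
      fun M hM => hB B τ hτ K w q Ω E p G n hW X R k hR M (hmem M hM) φ
    rw [Finset.sum_congr rfl h2, ← map_sum, A21.dgc_sum, ← map_sub, ← A21.dgc_one B, A21.dgc_sub,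
      hDm]
    congr 2
    funext j
    rw [hWd]
    congr 1
    rw [← Finset.sum_fiberwise_of_maps_to (s := univ.filter (fun σ : Fin (k + 1) → Fin n =>
      σ (Fin.last k) = j ∧ Function.Injective σ)) (t := A21.Ps n k) (g := fun σ => univ.image σ)
      (fun σ hσ => hcard σ (Finset.mem_filter.1 hσ).2.2)]
    refine Finset.sum_congr rfl fun M _ => Finset.sum_congr ?_ fun _ _ => rfl
    ext σ
    simp only [Finset.mem_filter, Finset.mem_univ, true_and]
    tauto
  have e5 := hC B K w hw q C hq n Γ hΓ hcol Ω E (Fin n → ZMod R) Z 1 hZn p Dm hE θ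
  have e6 : ∀ ω, ∑ f, qa q (amp w (Fin n) (dgu (p ω) * Z ω f) θ)
      (amp w (Fin n) (dgu (p ω) * Z ω f) θ) =
      ∑ f ∈ univ.filter (fun f => f ∉ A21.Ss n k R), qa q (V ω f) (V ω f) := by
    intro ω
    rw [A21.sum_split k R]
    have z1 : ∑ f ∈ A21.Ss n k R, qa q (amp w (Fin n) (dgu (p ω) * Z ω f) θ)
      (amp w (Fin n) (dgu (p ω) * Z ω f) θ) = 0 := by
      refine Finset.sum_eq_zero fun f hf => ?_
      rw [hZ, if_pos hf, mul_zero, map_zero]
      exact qa_zero hq _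
    rw [z1, zero_add]
    refine Finset.sum_congr rfl fun f hf => ?_
    rw [hZ, if_neg (Finset.mem_filter.1 hf).2, hV]
  simp only [e6] at e5
  have e7 : Γ * ‖Dm‖ * ‖θ‖ ^ 2 ≤ Γ * ((k + 1) ^ 2 * δ) * ‖θ‖ ^ 2 := by
    rcases Nat.eq_zero_or_pos n with hn | hn
    · have : IsEmpty (Fin n) := by rw [hn]; infer_instance
      have h0 : θ = 0 := by
        ext i
        exact isEmptyElim i
      rw [h0]
      simp
    · have hδ0 : 0 ≤ δ :=
        (Complex.nonneg_iff.1 (hτ.pos (X ⟨0, hn⟩ ⟨0, hn⟩))).1.trans (hδ ⟨0, hn⟩ ⟨0, hn⟩)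
      have h1 : ‖Dm‖ ≤ (k + 1) ^ 2 * δ := by
        rw [hDm]
        refine A21.norm_dgc_le B _ _ (by positivity) fun j => ?_
        rw [abs_of_nonneg (by linarith [hW1 j])]
        linarith [hW2 j]
      gcongr
  rw [e3]
  have e8 : ∀ (N : ℕ) (z : ℂ), ((N : ℂ) * z).re = (N : ℝ) * z.re := by
    intro N z
    rw [← Complex.ofReal_natCast, Complex.re_ofReal_mul]
  rw [e8, Complex.add_re]
  have hN : (0 : ℝ) ≤ (Fintype.card (Fin n → ZMod R) : ℕ) := Nat.cast_nonneg _
  exact mul_le_mul_of_nonneg_left (add_le_add e4 (e5.trans e7)) hN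

end Pool.Agent.Y79.D3
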